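import Pool.Agent.Lib.MP_939498_co.h75F

/-!
# MP_939498_co: where the balanced construction is optimal

`N n k` is the largest size of a set of nonzero vertices of the cube of weight at most `k` whose
real span contains no unit vector; `m2 n k` is the size of the balanced family.

For even `k` the pairs with `N n k = m2 n k` are determined outside the window
`max (3k/2, 2k - 3 √(k log k)) < n < 2k + 3`.
-/

namespace Pool.Agent.Results.MP_939498_co.Threshold

open H75MP939

theorem result (n k : ℕ) (hk : Even k) (hkn : k ≤ n) :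
    ((k = 2 ∨ 2 * n ≤ 3 * k ∨ (n : ℝ) + 3 * Real.sqrt (k * Real.log k) ≤ 2 * k) →
      N n k = m2 n k) ∧
    ((k = 4 ∧ 13 ≤ n ∨ k = 6 ∧ 16 ≤ n ∨ 8 ≤ k ∧ 2 * k + 3 ≤ n) → m2 n k < N n k) := by
  constructor
  · rintro (rfl | h | h)
    · exact N_two n
    · exact N_eq_of_le hk hkn h
    · rcases Nat.eq_zero_or_pos k with h0 | h0
      · subst h0
        have hn : (n : ℝ) ≤ 0 := by
          have := Real.sqrt_nonneg (((0 : ℕ) : ℝ) * Real.log ((0 : ℕ) : ℝ))
          push_cast at h this
          linarith
        have hn0 : n = 0 := by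
          have : n ≤ 0 := by exact_mod_cast hn
          omega
        exact N_eq_of_le hk hkn (by omega)
      · have hk2 : 2 ≤ k := by
          obtain ⟨j, rfl⟩ := hk
          omega
        exact N_eq_of_sqrt hk hk2 hkn h
  · rintro (⟨rfl, h⟩ | ⟨rfl, h⟩ | ⟨h8, h⟩)
    · exact m2_lt_N_four h
    · exact m2_lt_N_six h
    · exact m2_lt_N hk h8 h

end Pool.Agent.Results.MP_939498_co.Threshold
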